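import Mathlib

namespace Pool.Agent.Work.MP_a97ec2_h13

open Set

/-- finite approximation -/
structure Good (P : Finset Ordinal.{0} → Prop) (W : Ordinal.{0} → Set Ordinal.{0})
    (f : Ordinal.{0} → Ordinal.{0} → Ordinal.{0}) (t : Ordinal.{0})
    (F : Finset Ordinal.{0}) (x : Ordinal.{0} → Ordinal.{0}) : Prop where
  top : t ∈ F
  le : ∀ n ∈ F, n ≤ t
  mem : ∀ n ∈ F, x n ∈ W n
  mono : ∀ m ∈ F, ∀ n ∈ F, m < n → x m < x n
  stat : ∀ n, P ((F.filter (· < n)).image x)
  rain : ∀ n ∈ F, ∀ m ∈ F, ∀ k ∈ F, m < k → k < n → f (x m) (x n) ≠ f (x k) (x n)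

/-- one more point can be inserted -/
def Step (P : Finset Ordinal.{0} → Prop) (W : Ordinal.{0} → Set Ordinal.{0})
    (f : Ordinal.{0} → Ordinal.{0} → Ordinal.{0}) (t : Ordinal.{0}) : Prop :=
  ∀ (F : Finset Ordinal.{0}) (x : Ordinal.{0} → Ordinal.{0}), Good P W f t F x →
    ∀ n ≤ t, n ∉ F → ∀ m ∈ F, n < m → (∀ k ∈ F, n < k → m ≤ k) → ∀ z < x m,
      ∃ y, z < y ∧ y < x m ∧ Good P W f t (insert n F) (Function.update x n y)

theorem next {P : Finset Ordinal.{0} → Prop} {W : Ordinal.{0} → Set Ordinal.{0}}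
    {f : Ordinal.{0} → Ordinal.{0} → Ordinal.{0}} {t : Ordinal.{0}}
    (hstep : Step P W f t)
    (e : ℕ → Ordinal.{0}) (he : ∀ n, e n ≤ t)
    (z : Ordinal.{0} → ℕ → Ordinal.{0})
    (hlt : ∀ v ≤ t, ∀ d ∈ W v, ∀ n, z d n < d) (n : ℕ)
    (s : {p : Finset Ordinal.{0} × (Ordinal.{0} → Ordinal.{0}) // Good P W f t p.1 p.2}) :
    ∃ s' : {p : Finset Ordinal.{0} × (Ordinal.{0} → Ordinal.{0}) // Good P W f t p.1 p.2},
      s'.1.1 = insert (e n) s.1.1 ∧ (∀ k ∈ s.1.1, s'.1.2 k = s.1.2 k) ∧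
      (e n ∉ s.1.1 → ∀ m ∈ s.1.1, e n < m → (∀ k ∈ s.1.1, e n < k → m ≤ k) →
        z (s.1.2 m) n < s'.1.2 (e n)) := by
  classical
  obtain ⟨⟨F, x⟩, hg⟩ := s
  by_cases hm : e n ∈ F
  · refine ⟨⟨⟨F, x⟩, hg⟩, ?_, ?_, ?_⟩
    · simp [Finset.insert_eq_of_mem hm]
    · intro k hk; rfl
    · intro h; exact absurd hm h
  · have hne : (F.filter (e n < ·)).Nonempty := by
      refine ⟨t, ?_⟩
      rw [Finset.mem_filter]
      refine ⟨hg.top, lt_of_le_of_ne (he n) ?_⟩
      intro h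
      exact hm (h ▸ hg.top)
    have hmin := Finset.min'_mem (F.filter (e n < ·)) hne
    rw [Finset.mem_filter] at hmin
    obtain ⟨h1, h2⟩ := hmin
    set m := (F.filter (e n < ·)).min' hne with hmdef
    have h3 : ∀ k ∈ F, e n < k → m ≤ k := by
      intro k hk hlt'
      exact Finset.min'_le _ _ (Finset.mem_filter.mpr ⟨hk, hlt'⟩)
    have h4 : z (x m) n < x m := hlt m (hg.le m h1) (x m) (hg.mem m h1) n
    obtain ⟨y, hy1, hy2, hy3⟩ := hstep F x hg (e n) (he n) hm m h1 h2 h3 _ h4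
    refine ⟨⟨⟨insert (e n) F, Function.update x (e n) y⟩, hy3⟩, rfl, ?_, ?_⟩
    · intro k hk
      have : k ≠ e n := by
        intro h; exact hm (h ▸ hk)
      simp [Function.update_of_ne this]
    · intro _ m' hm' hlt' hle'
      have : m' = m := by
        apply le_antisymm
        · exact hle' m h1 h2
        · exact h3 m' hm' hlt'
      subst this
      simpa using hy1

theorem con {P : Finset Ordinal.{0} → Prop} {W : Ordinal.{0} → Set Ordinal.{0}}
    {f : Ordinal.{0} → Ordinal.{0} → Ordinal.{0}} {t : Ordinal.{0}}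
    (hstep : Step P W f t) (x0 : Ordinal.{0} → Ordinal.{0}) (h0 : Good P W f t {t} x0)
    (e : ℕ → Ordinal.{0}) (he : ∀ n, e n ≤ t) (hs : ∀ v ≤ t, ∃ n, e n = v)
    (z : Ordinal.{0} → ℕ → Ordinal.{0}) (hmono : ∀ d, Monotone (z d))
    (hlt : ∀ v ≤ t, ∀ d ∈ W v, ∀ n, z d n < d)
    (hcof : ∀ v ≤ t, ∀ d ∈ W v, ∀ w < d, ∃ n, w ≤ z d n) :
    ∃ X : Ordinal.{0} → Ordinal.{0}, (∀ v ≤ t, X v ∈ W v) ∧
      (∀ a b, a < b → b ≤ t → X a < X b) ∧
      (∀ a b c, a < b → b < c → c ≤ t → f (X a) (X c) ≠ f (X b) (X c)) ∧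
      (∀ l ≤ t, l ≠ 0 → (∀ a < l, Order.succ a < l) → ∀ w < X l, ∃ a < l, w < X a) := by
  classical
  choose nx hn1 hn2 hn3 using next hstep e he z hlt
  let st : ℕ → {p : Finset Ordinal.{0} × (Ordinal.{0} → Ordinal.{0}) // Good P W f t p.1 p.2} :=
    fun n => Nat.rec ⟨⟨{t}, x0⟩, h0⟩ (fun n s => nx n s) n
  have st1 : ∀ n, st (n + 1) = nx n (st n) := fun n => rfl
  have F1 : ∀ n, (st (n + 1)).1.1 = insert (e n) (st n).1.1 := fun n => by
    rw [st1]; exact hn1 n (st n)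
  have x1 : ∀ n, ∀ k ∈ (st n).1.1, (st (n + 1)).1.2 k = (st n).1.2 k := fun n => by
    rw [st1]; exact hn2 n (st n)
  have z1 : ∀ n, e n ∉ (st n).1.1 → ∀ m ∈ (st n).1.1, e n < m →
      (∀ k ∈ (st n).1.1, e n < k → m ≤ k) →
        z ((st n).1.2 m) n < (st (n + 1)).1.2 (e n) := fun n => by
    rw [st1]; exact hn3 n (st n)
  have Fsub : ∀ n, (st n).1.1 ⊆ (st (n + 1)).1.1 := fun n => by
    rw [F1]; exact Finset.subset_insert _ _
  have Fmono : ∀ n m, n ≤ m → (st n).1.1 ⊆ (st m).1.1 := by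
    intro n m h
    induction m, h using Nat.le_induction with
    | base => exact Finset.Subset.refl _
    | succ m _ ih => exact ih.trans (Fsub m)
  have xeq : ∀ n m, n ≤ m → ∀ k ∈ (st n).1.1, (st m).1.2 k = (st n).1.2 k := by
    intro n m h
    induction m, h using Nat.le_induction with
    | base => intro k _; rfl
    | succ m h ih =>
      intro k hk
      rw [x1 m k (Fmono n m h hk), ih k hk]
  have ex : ∀ v ≤ t, ∃ n, v ∈ (st n).1.1 := by
    intro v hv
    obtain ⟨n, hn⟩ := hs v hv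
    exact ⟨n + 1, by rw [F1, hn]; exact Finset.mem_insert_self _ _⟩
  let X : Ordinal.{0} → Ordinal.{0} := fun v =>
    if h : ∃ n, v ∈ (st n).1.1 then (st (Nat.find h)).1.2 v else 0
  have Xe : ∀ n, ∀ v ∈ (st n).1.1, X v = (st n).1.2 v := by
    intro n v hv
    have h : ∃ n, v ∈ (st n).1.1 := ⟨n, hv⟩
    have : X v = (st (Nat.find h)).1.2 v := by
      simp only [X]; rw [dif_pos h]
    rw [this]
    exact (xeq (Nat.find h) n (Nat.find_min' h hv) v (Nat.find_spec h)).symm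
  refine ⟨X, ?_, ?_, ?_, ?_⟩
  · intro v hv
    obtain ⟨n, hn⟩ := ex v hv
    rw [Xe n v hn]
    exact (st n).2.mem v hn
  · intro a b hab hb
    obtain ⟨n, hn⟩ := ex a (hab.le.trans hb)
    obtain ⟨m, hm⟩ := ex b hb
    have ha' := Fmono n (max n m) (le_max_left _ _) hn
    have hb' := Fmono m (max n m) (le_max_right _ _) hm
    rw [Xe _ a ha', Xe _ b hb']
    exact (st (max n m)).2.mono a ha' b hb' hab
  · intro a b c hab hbc hc
    obtain ⟨n, hn⟩ := ex a ((hab.trans hbc).le.trans hc)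
    obtain ⟨m, hm⟩ := ex b (hbc.le.trans hc)
    obtain ⟨k, hk⟩ := ex c hc
    have ha' := Fmono n (max n (max m k)) (le_max_left _ _) hn
    have hb' := Fmono m (max n (max m k)) ((le_max_left _ _).trans (le_max_right _ _)) hm
    have hc' := Fmono k (max n (max m k)) ((le_max_right _ _).trans (le_max_right _ _)) hk
    rw [Xe _ a ha', Xe _ b hb', Xe _ c hc']
    exact (st _).2.rain c hc' a ha' b hb' hab hbc
  · intro l hl hl0 hlim w hw
    obtain ⟨m0, hm0⟩ := ex l hl
    have hXl : X l ∈ W l := by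
      rw [Xe m0 l hm0]; exact (st m0).2.mem l hm0
    obtain ⟨k, hk⟩ := hcof l hl (X l) hXl w hw
    set m := max m0 k with hmdef
    have hlm : l ∈ (st m).1.1 := Fmono m0 m (le_max_left _ _) hm0
    obtain ⟨a, hal, ha⟩ : ∃ a < l, ∀ c ∈ (st m).1.1, c < l → c < a := by
      refine ⟨((st m).1.1.filter (· < l)).sup Order.succ, ?_, ?_⟩
      · rw [Finset.sup_lt_iff (by rw [bot_lt_iff_ne_bot]; exact hl0)]
        intro c hc
        rw [Finset.mem_filter] at hc
        exact hlim c hc.2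
      · intro c hc hcl
        have : Order.succ c ≤ ((st m).1.1.filter (· < l)).sup Order.succ :=
          Finset.le_sup (f := Order.succ) (Finset.mem_filter.mpr ⟨hc, hcl⟩)
        exact lt_of_lt_of_le (Order.lt_succ c) this
    have hQ : ∃ n, m ≤ n ∧ a ≤ e n ∧ e n < l := by
      obtain ⟨j, hj⟩ := hs a (hal.le.trans hl)
      refine ⟨j, ?_, hj.ge, hj ▸ hal⟩
      by_contra hlt'
      push Not at hlt'
      have : e j ∈ (st m).1.1 := by
        apply Fmono (j + 1) m hlt'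
        rw [F1]; exact Finset.mem_insert_self _ _
      rw [hj] at this
      exact lt_irrefl _ (ha a this hal)
    obtain ⟨hq1, hq2, hq3⟩ := Nat.find_spec hQ
    have hqm := fun j (hj : j < Nat.find hQ) => Nat.find_min hQ hj
    generalize Nat.find hQ = n at hq1 hq2 hq3 hqm
    have hall : ∀ j, m ≤ j → j ≤ n → ∀ c ∈ (st j).1.1, c < l → c < a := by
      intro j hj
      induction j, hj using Nat.le_induction with
      | base => intro _; exact ha
      | succ j hj ih =>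
        intro hjn c hc hcl
        rw [F1, Finset.mem_insert] at hc
        rcases hc with rfl | hc
        · by_contra hca
          push Not at hca
          exact hqm j hjn ⟨hj, hca, hcl⟩
        · exact ih (by omega) c hc hcl
    have hn := hall n hq1 le_rfl
    have hnot : e n ∉ (st n).1.1 := by
      intro h
      exact absurd (hn _ h hq3) (not_lt.mpr hq2)
    have hln : l ∈ (st n).1.1 := Fmono m n hq1 hlm
    have hz := z1 n hnot l hln hq3 (by
      intro c hc hec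
      by_contra hcl
      push Not at hcl
      exact absurd (hn c hc hcl) (not_lt.mpr (hq2.trans hec.le)))
    refine ⟨e n, hq3, ?_⟩
    have hen : e n ∈ (st (n + 1)).1.1 := by
      rw [F1]; exact Finset.mem_insert_self _ _
    rw [Xe (n + 1) (e n) hen]
    refine lt_of_le_of_lt (hk.trans ?_) hz
    rw [Xe n l hln]
    exact hmono _ ((le_max_right _ _).trans hq1)

end Pool.Agent.Work.MP_a97ec2_h13
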