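import Pool.Agent.Work.MP_a97ec2_h29.Interface

namespace Pool.Rbw

open Cardinal Ordinal

namespace Stp13

theorem p_STEP (h : T_ZC) : T_STEP := by
  classical
  intro Ω _ _ hΩ Θ _ _ _ f W hf hW F x hg ν hν m hm hνm hnext z hz
  have hle : ∀ a ∈ F, ∀ c ∈ F, a ≤ c → x a ≤ x c := by
    intro a ha c hc hac
    rcases hac.eq_or_lt with rfl | hlt
    · exact le_rfl
    · exact (hg.mono a ha c hc hlt).le
  have hinj : ∀ a ∈ F, ∀ c ∈ F, x a = x c → a = c := by
    intro a ha c hc hac
    rcases lt_trichotomy a c with hlt | heq | hgt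
    · exact absurd hac (hg.mono a ha c hc hlt).ne
    · exact heq
    · exact absurd hac (hg.mono c hc a ha hgt).ne'
  set b := (F.filter (· < ν)).image x with hb
  have hbst : Stat (TT f b) := by
    apply hg.stat (F.filter (· < ν)) (Finset.filter_subset _ _)
    intro a ha c hc hca
    rw [Finset.mem_filter] at ha ⊢
    exact ⟨hc, hca.trans ha.2⟩
  have hbm : ∀ a ∈ b, a < x m := by
    intro a ha
    rw [hb, Finset.mem_image] at ha
    obtain ⟨c, hc, rfl⟩ := ha
    rw [Finset.mem_filter] at hc
    exact hg.mono c hc.1 m hm (hc.2.trans hνm)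
  have hne : (insert z b).Nonempty := Finset.insert_nonempty _ _
  set z' := (insert z b).max' hne with hz'
  have hz'm : z' < x m := by
    rw [hz', Finset.max'_lt_iff]
    intro a ha
    rw [Finset.mem_insert] at ha
    rcases ha with rfl | ha
    · exact hz
    · exact hbm a ha
  have hunc := hW.unc m (x m) (hg.mem m hm) ν hνm b hbm hbst z' hz'm
  set C1 : Set Ω := ⋃ G ∈ F.powerset,
    {y | Stat (TT f (G.image x)) ∧ ¬ Stat (TT f (insert y (G.image x)))} with hC1
  set C2 : Set Ω := ⋃ μ ∈ F, ⋃ μ' ∈ F, {a | a < x μ ∧ f a (x μ) = f (x μ') (x μ)} with hC2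
  have c1 : C1.Countable := by
    rw [hC1]
    refine Set.Countable.biUnion (Finset.countable_toSet _) ?_
    intro G _
    by_cases hG : Stat (TT f (G.image x))
    · exact (h Ω hΩ f hf _ hG).mono (fun y hy => hy.2)
    · have : {y | Stat (TT f (G.image x)) ∧ ¬ Stat (TT f (insert y (G.image x)))} = ∅ := by
        ext y; simp [hG]
      rw [this]; exact Set.countable_empty
  have c2 : C2.Countable := by
    rw [hC2]
    refine Set.Countable.biUnion (Finset.countable_toSet _) ?_
    intro μ _
    refine Set.Countable.biUnion (Finset.countable_toSet _) ?_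
    intro μ' _
    exact hf (x μ) _
  obtain ⟨v, hv, hvC⟩ : ∃ v, (v ∈ TT f b ∧ v ∈ W ν ∧ z' < v ∧ v < x m) ∧ v ∉ C1 ∪ C2 := by
    by_contra hcon
    push Not at hcon
    exact hunc ((c1.union c2).mono (fun e he => hcon e he))
  obtain ⟨hv1, hv2, hv3, hv4⟩ := hv
  have hvz : z < v := lt_of_le_of_lt (Finset.le_max' _ _ (Finset.mem_insert_self _ _)) hv3
  have hvb : ∀ a ∈ b, a < v := fun a ha =>
    lt_of_le_of_lt (Finset.le_max' _ _ (Finset.mem_insert_of_mem ha)) hv3
  have u1 : Function.update x ν v ν = v := by simp
  have u2 : ∀ a ∈ F, Function.update x ν v a = x a := by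
    intro a ha
    have : a ≠ ν := by
      intro h'; exact hν (h' ▸ ha)
    simp [Function.update_of_ne this]
  have lo : ∀ a ∈ F, a < ν → x a < v := by
    intro a ha hlt
    exact hvb _ (Finset.mem_image_of_mem x (Finset.mem_filter.mpr ⟨ha, hlt⟩))
  have hi : ∀ a ∈ F, ν < a → v < x a := by
    intro a ha hlt
    exact lt_of_lt_of_le hv4 (hle m hm a ha (hnext a ha hlt))
  have bad : ∀ a ∈ F, ∀ c ∈ F, ν < a → f v (x a) ≠ f (x c) (x a) := by
    intro a ha c hc hlt heq
    apply hvC
    right
    rw [hC2]
    simp only [Set.mem_iUnion]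
    exact ⟨a, ha, c, hc, hi a ha hlt, heq⟩
  refine ⟨v, hvz, hv4, ?_, ?_, ?_, ?_⟩
  · intro a ha c hc hac
    rw [Finset.mem_insert] at ha hc
    rcases ha with rfl | ha
    · rcases hc with rfl | hc
      · exact absurd hac (lt_irrefl _)
      · rw [u1, u2 c hc]; exact hi c hc hac
    · rcases hc with rfl | hc
      · rw [u1, u2 a ha]; exact lo a ha hac
      · rw [u2 a ha, u2 c hc]; exact hg.mono a ha c hc hac
  · intro a ha
    rw [Finset.mem_insert] at ha
    rcases ha with rfl | ha
    · rw [u1]; exact hv2
    · rw [u2 a ha]; exact hg.mem a ha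
  · intro G hG hini
    have himg : ∀ G' : Finset Θ, G' ⊆ F → G'.image (Function.update x ν v) = G'.image x := by
      intro G' hG'
      apply Finset.image_congr
      intro a ha
      exact u2 a (hG' ha)
    by_cases hνG : ν ∈ G
    · have hsub : G.erase ν ⊆ F := by
        intro a ha
        rw [Finset.mem_erase] at ha
        have := hG ha.2
        rw [Finset.mem_insert] at this
        exact this.resolve_left ha.1
      have hst : Stat (TT f ((G.erase ν).image x)) := by
        apply hg.stat _ hsub
        intro a ha c hc hca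
        rw [Finset.mem_erase] at ha ⊢
        refine ⟨?_, hini a ha.2 c (Finset.mem_insert_of_mem hc) hca⟩
        intro h'; exact hν (h' ▸ hc)
      have heq : G.image (Function.update x ν v) = insert v ((G.erase ν).image x) := by
        conv_lhs => rw [← Finset.insert_erase hνG]
        rw [Finset.image_insert, u1, himg _ hsub]
      rw [heq]
      by_contra hcon
      apply hvC
      left
      rw [hC1]
      simp only [Set.mem_iUnion]
      exact ⟨G.erase ν, Finset.mem_powerset.mpr hsub, hst, hcon⟩
    · have hsub : G ⊆ F := by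
        intro a ha
        have := hG ha
        rw [Finset.mem_insert] at this
        rcases this with rfl | h'
        · exact absurd ha hνG
        · exact h'
      rw [himg G hsub]
      apply hg.stat G hsub
      intro a ha c hc hca
      exact hini a ha c (Finset.mem_insert_of_mem hc) hca
  · intro n hn a ha c hc han hcn heq
    rw [Finset.mem_insert] at hn ha hc
    rcases hn with rfl | hn
    · have ha' : a ∈ F := ha.resolve_left han.ne
      have hc' : c ∈ F := hc.resolve_left hcn.ne
      rw [u1, u2 a ha', u2 c hc'] at heq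
      apply hinj a ha' c hc'
      exact hv1.2.2 _ (Finset.mem_image_of_mem x (Finset.mem_filter.mpr ⟨ha', han⟩)) _
        (Finset.mem_image_of_mem x (Finset.mem_filter.mpr ⟨hc', hcn⟩)) heq
    · rw [u2 n hn] at heq
      rcases ha with rfl | ha
      · rcases hc with rfl | hc
        · rfl
        · rw [u1, u2 c hc] at heq
          exact absurd heq (bad n hn c hc han)
      · rcases hc with rfl | hc
        · rw [u1, u2 a ha] at heq
          exact absurd heq.symm (bad n hn a ha hcn)
        · rw [u2 a ha, u2 c hc] at heq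
          exact hg.tr n hn a ha c hc han hcn heq

end Stp13

end Pool.Rbw
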